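import Mathlib

/-!
# MP_cbd977_an: complete pseudo-Pick pairs and positivity of `ℓ/k`

We disprove: if `(k, ℓ)` is complete pseudo-Pick and `k` is non-vanishing then `ℓ/k ⪰ 0`.
The counterexample lives on the three-point set `X = {0, 1, 2}`:

`k = [[10, 1, 1], [1, 1, -3/10], [1, -3/10, 1]]`,  `ℓ = [[16, 1, 1], [1, 1, 0], [1, 0, 1]]`.

`ℓ/k = [[8/5, 1, 1], [1, 1, 0], [1, 0, 1]]` is not positive semi-definite (test `(1, -1, -1)`).
If all three points carry data, then passing to inverses (Schur complements) the `k`-Pick matrix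
condition reads `k⁻¹ ⊗ I - Φ^* (k⁻¹ ⊗ I) Φ ⪰ 0`, and one multiplies (Hadamard) with the positive
matrix `ℓ⁻¹ / k⁻¹`. If at most two points carry data, the value at the missing point is *copied*
from one of the given points (from point `0` if it is present, from point `1` otherwise), which
is enough because `ℓ(0,0)` is large.
-/

open Matrix ComplexOrder Kronecker

namespace Pool.Agent.Results.MP_cbd977_an.ThreePoint

/-- `l` is a reproducing kernel on `X`: `[l(z_i, z_j)]` is positive semi-definite for every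
finite family of points. -/
def IsKernel {X : Type} (l : X → X → ℂ) : Prop :=
  ∀ (m : ℕ) (z : Fin m → X), (Matrix.of fun i j => l (z i) (z j)).PosSemidef

/-- The operator-valued kernel `(x, y) ↦ l(x, y) I_n`, whose reproducing kernel Hilbert space of
`ℂⁿ`-valued functions on `X` is `H_l ⊗ ℂⁿ`. -/
noncomputable def opKernel {X : Type} (l : X → X → ℂ) (n : ℕ) :
    Matrix X X (EuclideanSpace ℂ (Fin n) →L[ℂ] EuclideanSpace ℂ (Fin n)) :=
  Matrix.of fun x y => l x y • (1 : EuclideanSpace ℂ (Fin n) →L[ℂ] EuclideanSpace ℂ (Fin n))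

/-- `Φ` is a contractive multiplier of `H_l ⊗ ℂⁿ`, where `H_l ⊗ ℂⁿ` is Mathlib's reproducing
kernel Hilbert space `RKHS.OfKernel` of the kernel `l(x, y) I_n` (which has to be positive
semi-definite): for every `F` in the space, the function `x ↦ Φ(x) F(x)` is (the function of) an
element `G` of the space with `‖G‖ ≤ ‖F‖`. -/
def ContractiveMultiplier {X : Type} (l : X → X → ℂ) (n : ℕ)
    (Φ : X → Matrix (Fin n) (Fin n) ℂ) : Prop :=
  ∃ h : (opKernel l n).PosSemidef,
    haveI : Fact (opKernel l n).PosSemidef := ⟨h⟩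
    ∀ F : RKHS.OfKernel (opKernel l n), ∃ G : RKHS.OfKernel (opKernel l n),
      (∀ x, G x = WithLp.toLp 2 (Φ x *ᵥ (F x).ofLp)) ∧ ‖G‖ ≤ ‖F‖

/-- The block matrix `[(I - W_i W_j^*) k(z_i, z_j)]_{i,j=1}^n`. -/
def pick {X : Type} {n : ℕ} (k : X → X → ℂ) (z : Fin n → X)
    (W : Fin n → Matrix (Fin n) (Fin n) ℂ) : Matrix (Fin n × Fin n) (Fin n × Fin n) ℂ :=
  Matrix.of fun p q => k (z p.1) (z q.1) * (1 - W p.1 * (W q.1)ᴴ) p.2 q.2

/-- The pair `(k, l)` is complete pseudo-Pick. -/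
def CompletePseudoPick {X : Type} (k l : X → X → ℂ) : Prop :=
  ∀ (n : ℕ), 1 ≤ n → ∀ (z : Fin n → X) (W : Fin n → Matrix (Fin n) (Fin n) ℂ),
    (pick k z W).PosSemidef →
    ∃ Φ : X → Matrix (Fin n) (Fin n) ℂ, ContractiveMultiplier l n Φ ∧ ∀ i, Φ (z i) = W i

/-- The matrix `[κ(x,y) (I - Φ(x) Φ(y)^*)]`, indexed by (coordinate, point). -/
def form {n : ℕ} (Φ : Fin 3 → Matrix (Fin n) (Fin n) ℂ) (κ : Matrix (Fin 3) (Fin 3) ℂ) :
    Matrix (Fin n × Fin 3) (Fin n × Fin 3) ℂ :=
  Matrix.of fun p q => κ p.2 q.2 * (1 - Φ p.2 * (Φ q.2)ᴴ) p.1 q.1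

lemma schur_flip {m : Type*} [Fintype m] [DecidableEq m] (A D : Matrix m m ℂ) (hA : A.PosDef)
    (h : (A - D * A * Dᴴ).PosSemidef) : (A⁻¹ - Dᴴ * A⁻¹ * D).PosSemidef := by
  have hAi := hA.inv
  let _ := hA.isUnit.invertible
  let _ := hAi.isUnit.invertible
  have h0 : A⁻¹⁻¹ = A := Matrix.nonsing_inv_nonsing_inv A
    ((Matrix.isUnit_iff_isUnit_det A).1 hA.isUnit)
  have h1 : (fromBlocks A⁻¹ Dᴴ Dᴴᴴ A).PosSemidef := by
    rw [Matrix.PosDef.fromBlocks₁₁ Dᴴ A hAi, h0, conjTranspose_conjTranspose]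
    exact h
  have h2 := (Matrix.PosDef.fromBlocks₂₂ A⁻¹ Dᴴ hA).1 h1
  rwa [conjTranspose_conjTranspose] at h2

lemma mulk {n : ℕ} (Φ : Fin 3 → Matrix (Fin n) (Fin n) ℂ) (κ : Matrix (Fin 3) (Fin 3) ℂ)
    (a b : Fin n) (x y : Fin 3) :
    (blockDiagonal Φ * ((1 : Matrix (Fin n) (Fin n) ℂ) ⊗ₖ κ)) (a, x) (b, y) = Φ x a b * κ x y := by
  simp only [Matrix.mul_apply, Fintype.sum_prod_type, blockDiagonal_apply, kroneckerMap_apply,
    Matrix.one_apply]
  rw [Finset.sum_eq_single b]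
  · rw [Finset.sum_eq_single x]
    · simp
    · intro u _ hu; simp [hu.symm]
    · simp
  · intro c _ hc
    apply Finset.sum_eq_zero
    intro u _
    simp [hc]
  · simp

lemma mulD {n : ℕ} (M : Matrix (Fin n × Fin 3) (Fin n × Fin 3) ℂ)
    (Φ : Fin 3 → Matrix (Fin n) (Fin n) ℂ) (a b : Fin n) (x y : Fin 3) :
    (M * blockDiagonal Φ) (a, x) (b, y) = ∑ c, M (a, x) (c, y) * Φ y c b := by
  simp only [Matrix.mul_apply, Fintype.sum_prod_type, blockDiagonal_apply]
  apply Finset.sum_congr rfl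
  intro c _
  rw [Finset.sum_eq_single y]
  · simp
  · intro u _ hu; simp [hu]
  · simp

lemma sandwich {n : ℕ} (Φ : Fin 3 → Matrix (Fin n) (Fin n) ℂ) (κ : Matrix (Fin 3) (Fin 3) ℂ) :
    (1 : Matrix (Fin n) (Fin n) ℂ) ⊗ₖ κ
      - blockDiagonal Φ * ((1 : Matrix (Fin n) (Fin n) ℂ) ⊗ₖ κ) * (blockDiagonal Φ)ᴴ
    = form Φ κ := by
  ext ⟨a, x⟩ ⟨b, y⟩
  rw [Matrix.sub_apply, blockDiagonal_conjTranspose, mulD]
  simp_rw [mulk]
  simp only [form, of_apply, Matrix.sub_apply, kroneckerMap_apply, Matrix.mul_apply]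
  rw [mul_sub, Finset.mul_sum, mul_comm]
  congr 1
  apply Finset.sum_congr rfl
  intro c _
  ring

/-- flipping -/
lemma form_flip {n : ℕ} (Φ : Fin 3 → Matrix (Fin n) (Fin n) ℂ) (κ : Matrix (Fin 3) (Fin 3) ℂ)
    (hκ : κ.PosDef) (h : (form Φ κ).PosSemidef) :
    (form (fun x => (Φ x)ᴴ) κ⁻¹).PosSemidef := by
  rw [← sandwich] at h ⊢
  have h1 : ((1 : Matrix (Fin n) (Fin n) ℂ) ⊗ₖ κ).PosDef := Matrix.PosDef.one.kronecker hκ
  have := schur_flip _ _ h1 h
  rw [Matrix.inv_kronecker, inv_one] at this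
  rw [← blockDiagonal_conjTranspose, conjTranspose_conjTranspose]
  exact this

noncomputable def K : Matrix (Fin 3) (Fin 3) ℂ := !![10, 1, 1; 1, 1, -3/10; 1, -3/10, 1]
def L : Matrix (Fin 3) (Fin 3) ℂ := !![16, 1, 1; 1, 1, 0; 1, 0, 1]
noncomputable def G : Matrix (Fin 3) (Fin 3) ℂ :=
  !![650/1274, 65/182, 65/182; 65/182, 65/84, 65/560; 65/182, 65/560, 65/84]

lemma K_inv : K⁻¹ = !![91/650, -1/5, -1/5; -1/5, 18/13, 8/13; -1/5, 8/13, 18/13] := by
  apply Matrix.inv_eq_left_inv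
  ext i j
  fin_cases i <;> fin_cases j <;> simp [K, Matrix.mul_apply, Fin.sum_univ_three] <;> norm_num

lemma L_inv : L⁻¹ = !![1/14, -1/14, -1/14; -1/14, 15/14, 1/14; -1/14, 1/14, 15/14] := by
  apply Matrix.inv_eq_left_inv
  ext i j
  fin_cases i <;> fin_cases j <;> simp [L, Matrix.mul_apply, Fin.sum_univ_three] <;> norm_num

lemma G_mul (x y : Fin 3) : K⁻¹ x y * G x y = L⁻¹ x y := by
  rw [K_inv, L_inv, G]
  fin_cases x <;> fin_cases y <;> simp <;> norm_num

lemma psd_of_diag (A C : Matrix (Fin 3) (Fin 3) ℂ) (d : Fin 3 → ℝ) (hd : ∀ i, 0 ≤ d i)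
    (h : A = Cᴴ * diagonal (fun i => (d i : ℂ)) * C) : A.PosSemidef := by
  rw [h]
  refine (PosSemidef.diagonal ?_).conjTranspose_mul_mul_same C
  intro i
  exact Complex.zero_le_real.2 (hd i)

lemma K_psd : K.PosSemidef := by
  apply psd_of_diag K !![1, 1, -3/10; 1, 0, 13/90; 0, 0, 1] ![1, 9, 65/90]
  · intro i; fin_cases i <;> norm_num
  · ext i j
    fin_cases i <;> fin_cases j <;> simp [K, Matrix.mul_apply, Fin.sum_univ_three, map_ofNat] <;>
      norm_num

lemma L_psd : L.PosSemidef := by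
  apply psd_of_diag L !![1, 1, 0; 1, 0, 1; 1, 0, 0] ![1, 1, 14]
  · intro i; fin_cases i <;> norm_num
  · ext i j
    fin_cases i <;> fin_cases j <;> simp [L, Matrix.mul_apply, Fin.sum_univ_three]
    norm_num

lemma K_pd : K.PosDef := by
  rw [K_psd.posDef_iff_det_ne_zero]
  simp [K, Matrix.det_fin_three]
  norm_num

lemma L_pd : L.PosDef := by
  rw [L_psd.posDef_iff_det_ne_zero]
  simp [L, Matrix.det_fin_three]
  norm_num

lemma G_psd : G.PosSemidef := by
  apply psd_of_diag G !![1, 7/10, 7/10; 0, 1, -45/176; 0, 0, 1]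
    ![650/1274, 11/21, 28951/59136]
  · intro i; fin_cases i <;> norm_num
  · ext i j
    fin_cases i <;> fin_cases j <;> simp [G, Matrix.mul_apply, Fin.sum_univ_three, map_ofNat] <;>
      norm_num

/-- The full three-point case. -/
lemma full_case {n : ℕ} (Φ : Fin 3 → Matrix (Fin n) (Fin n) ℂ) (h : (form Φ K).PosSemidef) :
    (form (fun x => (Φ x)ᴴ) L⁻¹).PosSemidef := by
  have h1 := form_flip Φ K K_pd h
  have hJ : (Matrix.of fun _ _ : Fin n => (1 : ℂ)).PosSemidef := by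
    have := Matrix.posSemidef_vecMulVec_self_star (fun _ : Fin n => (1 : ℂ))
    convert this using 1
    ext i j
    simp [vecMulVec_apply]
  have h2 := h1.hadamard (hJ.kronecker G_psd)
  have h3 : form (fun x => (Φ x)ᴴ) L⁻¹ =
      form (fun x => (Φ x)ᴴ) K⁻¹ ⊙ ((Matrix.of fun _ _ : Fin n => (1 : ℂ)) ⊗ₖ G) := by
    ext ⟨a, x⟩ ⟨b, y⟩
    simp only [form, of_apply, hadamard_apply, kroneckerMap_apply, ← G_mul]
    ring
  rw [h3]
  exact h2


/-- sesquilinear form `u^* (I - A B^*) w`. -/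
noncomputable def bb {n : ℕ} (A B : Matrix (Fin n) (Fin n) ℂ) (u w : Fin n → ℂ) : ℂ :=
  star u ⬝ᵥ ((1 - A * Bᴴ) *ᵥ w)

lemma expand {n : ℕ} (Φ : Fin 3 → Matrix (Fin n) (Fin n) ℂ) (κ : Matrix (Fin 3) (Fin 3) ℂ)
    (v : Fin n × Fin 3 → ℂ) :
    star v ⬝ᵥ (form Φ κ *ᵥ v) =
      ∑ x, ∑ y, κ x y * bb (Φ x) (Φ y) (fun a => v (a, x)) (fun a => v (a, y)) := by
  simp only [dotProduct, mulVec, form, of_apply, bb, Fintype.sum_prod_type, Pi.star_apply,
    Finset.mul_sum]
  rw [Finset.sum_comm]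
  apply Finset.sum_congr rfl
  intro x _
  symm
  rw [Finset.sum_comm]
  apply Finset.sum_congr rfl
  intro a _
  rw [Finset.sum_comm]
  apply Finset.sum_congr rfl
  intro b _
  apply Finset.sum_congr rfl
  intro y _
  ring

lemma form_herm {n : ℕ} (Φ : Fin 3 → Matrix (Fin n) (Fin n) ℂ) (κ : Matrix (Fin 3) (Fin 3) ℂ)
    (h : κ.IsHermitian) : (form Φ κ).IsHermitian := by
  ext ⟨a, x⟩ ⟨b, y⟩
  have h1 : (1 - Φ x * (Φ y)ᴴ) = (1 - Φ y * (Φ x)ᴴ)ᴴ := by
    simp
  simp only [form, conjTranspose_apply, of_apply, star_mul]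
  rw [h1, conjTranspose_apply, ← h.apply x y]
  ring

lemma bb_add_left {n : ℕ} (A B : Matrix (Fin n) (Fin n) ℂ) (u u' w : Fin n → ℂ) :
    bb A B (u + u') w = bb A B u w + bb A B u' w := by
  simp [bb, add_dotProduct]

lemma bb_add_right {n : ℕ} (A B : Matrix (Fin n) (Fin n) ℂ) (u w w' : Fin n → ℂ) :
    bb A B u (w + w') = bb A B u w + bb A B u w' := by
  simp [bb, mulVec_add, dotProduct_add]

lemma bb_smul_left {n : ℕ} (A B : Matrix (Fin n) (Fin n) ℂ) (u w : Fin n → ℂ) (c : ℝ) :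
    bb A B ((c : ℂ) • u) w = c * bb A B u w := by
  simp [bb, star_smul]

lemma bb_smul_right {n : ℕ} (A B : Matrix (Fin n) (Fin n) ℂ) (u w : Fin n → ℂ) (c : ℝ) :
    bb A B u ((c : ℂ) • w) = c * bb A B u w := by
  simp [bb, mulVec_smul]

lemma bb_zero_left {n : ℕ} (A B : Matrix (Fin n) (Fin n) ℂ) (w : Fin n → ℂ) :
    bb A B 0 w = 0 := by
  simp [bb]

lemma bb_zero_right {n : ℕ} (A B : Matrix (Fin n) (Fin n) ℂ) (u : Fin n → ℂ) :
    bb A B u 0 = 0 := by
  simp [bb]

lemma pick_sub {n : ℕ} (k : Fin 3 → Fin 3 → ℂ) (z : Fin n → Fin 3)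
    (W : Fin n → Matrix (Fin n) (Fin n) ℂ) (h : (pick k z W).PosSemidef) (e : Fin 3 → Fin n) :
    (form (fun x => W (e x)) (Matrix.of fun x y => k (z (e x)) (z (e y)))).PosSemidef := by
  have := h.submatrix (fun p : Fin n × Fin 3 => (e p.2, p.1))
  exact this

lemma two {n : ℕ} (k : Fin 3 → Fin 3 → ℂ) (z : Fin n → Fin 3)
    (W : Fin n → Matrix (Fin n) (Fin n) ℂ) (h : (pick k z W).PosSemidef) (i j : Fin n)
    (u w : Fin n → ℂ) :
    0 ≤ k (z i) (z i) * bb (W i) (W i) u u + k (z i) (z j) * bb (W i) (W j) u w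
      + k (z j) (z i) * bb (W j) (W i) w u + k (z j) (z j) * bb (W j) (W j) w w := by
  have h1 := (pick_sub k z W h ![i, j, j]).dotProduct_mulVec_nonneg
    (fun p : Fin n × Fin 3 => (![u, w, 0] p.2) p.1)
  rw [expand] at h1
  simp only [Fin.sum_univ_three, of_apply, Matrix.cons_val_zero, Matrix.cons_val_one,
    Matrix.cons_val] at h1
  have e0 : (fun a : Fin n => (0 : Fin n → ℂ) a) = 0 := rfl
  rw [e0] at h1
  simp only [bb_zero_left, bb_zero_right] at h1
  convert h1 using 1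
  ring

lemma nn_of_mul (c x : ℂ) (hc : 0 < c) (h : 0 ≤ c * x) : 0 ≤ x := by
  have h1 : (0 : ℂ) ≤ c⁻¹ := by
    rw [inv_nonneg]
    exact hc.le
  have h2 := mul_nonneg h1 h
  rwa [← mul_assoc, inv_mul_cancel₀ hc.ne', one_mul] at h2

lemma eq_of_same {n : ℕ} (k : Fin 3 → Fin 3 → ℂ) (z : Fin n → Fin 3)
    (W : Fin n → Matrix (Fin n) (Fin n) ℂ) (h : (pick k z W).PosSemidef) (i j : Fin n)
    (hz : z i = z j) (hk : 0 < k (z i) (z i)) : W i = W j := by
  have key : ∀ v : Fin n → ℂ, (W i - W j)ᴴ *ᵥ v = 0 := by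
    intro v
    have h1 := two k z W h i j v (((-1 : ℝ) : ℂ) • v)
    rw [← hz] at h1
    rw [bb_smul_left, bb_smul_right, bb_smul_left, bb_smul_right] at h1
    have h2 : 0 ≤ bb (W i) (W i) v v - bb (W i) (W j) v v - bb (W j) (W i) v v
        + bb (W j) (W j) v v := by
      have : 0 ≤ k (z i) (z i) * (bb (W i) (W i) v v - bb (W i) (W j) v v - bb (W j) (W i) v v
        + bb (W j) (W j) v v) := by
        convert h1 using 1
        push_cast
        ring
      exact nn_of_mul _ _ hk this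
    have h3 : bb (W i) (W i) v v - bb (W i) (W j) v v - bb (W j) (W i) v v
        + bb (W j) (W j) v v = - (star ((W i - W j)ᴴ *ᵥ v) ⬝ᵥ ((W i - W j)ᴴ *ᵥ v)) := by
      rw [star_mulVec, conjTranspose_conjTranspose, ← dotProduct_mulVec, mulVec_mulVec]
      simp only [bb]
      rw [← dotProduct_sub, ← dotProduct_sub, ← dotProduct_add, ← dotProduct_neg,
        ← sub_mulVec, ← sub_mulVec, ← add_mulVec, ← neg_mulVec]
      congr 2
      rw [conjTranspose_sub]
      noncomm_ring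
    rw [h3] at h2
    have h4 : star ((W i - W j)ᴴ *ᵥ v) ⬝ᵥ ((W i - W j)ᴴ *ᵥ v) = 0 := by
      apply le_antisymm
      · exact neg_nonneg.1 h2
      · exact dotProduct_star_self_nonneg _
    exact dotProduct_star_self_eq_zero.1 h4
  have h5 : (W i - W j)ᴴ = 0 := by
    apply Matrix.ext_of_mulVec_single
    intro a
    rw [key, zero_mulVec]
  have h6 : W i - W j = 0 := by
    rw [← conjTranspose_conjTranspose (W i - W j), h5, conjTranspose_zero]
  exact sub_eq_zero.1 h6

/-- Data on `{0,1}` (third value copied from `0`). -/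
lemma case01 {n : ℕ} (A B : Matrix (Fin n) (Fin n) ℂ)
    (h : ∀ u w : Fin n → ℂ, 0 ≤ 10 * bb A A u u + bb A B u w + bb B A w u + bb B B w w) :
    (form ![A, B, A] L).PosSemidef := by
  refine PosSemidef.of_dotProduct_mulVec_nonneg (form_herm _ _ L_psd.isHermitian) fun v => ?_
  rw [expand]
  set x : Fin n → ℂ := fun a => v (a, 0)
  set y : Fin n → ℂ := fun a => v (a, 1)
  set t : Fin n → ℂ := fun a => v (a, 2)
  have hA : ∀ u : Fin n → ℂ, 0 ≤ bb A A u u := by
    intro u
    have := h u 0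
    simp only [bb_zero_left, bb_zero_right, add_zero] at this
    exact nn_of_mul 10 _ (by norm_num) this
  have h1 := h x y
  have h2 := hA (x + t)
  have h3 := mul_nonneg (show (0 : ℂ) ≤ 5 by norm_num) (hA x)
  have h4 := add_nonneg (add_nonneg h1 h2) h3
  convert h4 using 1
  rw [bb_add_left, bb_add_right, bb_add_right]
  simp [Fin.sum_univ_three, L]
  ring

lemma case02 {n : ℕ} (A B : Matrix (Fin n) (Fin n) ℂ)
    (h : ∀ u w : Fin n → ℂ, 0 ≤ 10 * bb A A u u + bb A B u w + bb B A w u + bb B B w w) :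
    (form ![A, A, B] L).PosSemidef := by
  refine PosSemidef.of_dotProduct_mulVec_nonneg (form_herm _ _ L_psd.isHermitian) fun v => ?_
  rw [expand]
  set x : Fin n → ℂ := fun a => v (a, 0)
  set y : Fin n → ℂ := fun a => v (a, 1)
  set t : Fin n → ℂ := fun a => v (a, 2)
  have hA : ∀ u : Fin n → ℂ, 0 ≤ bb A A u u := by
    intro u
    have := h u 0
    simp only [bb_zero_left, bb_zero_right, add_zero] at this
    exact nn_of_mul 10 _ (by norm_num) this
  have h1 := h x t
  have h2 := hA (x + y)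
  have h3 := mul_nonneg (show (0 : ℂ) ≤ 5 by norm_num) (hA x)
  have h4 := add_nonneg (add_nonneg h1 h2) h3
  convert h4 using 1
  rw [bb_add_left, bb_add_right, bb_add_right]
  simp [Fin.sum_univ_three, L]
  ring

lemma case12 {n : ℕ} (A B : Matrix (Fin n) (Fin n) ℂ)
    (h : ∀ u w : Fin n → ℂ, 0 ≤ bb A A u u + (-3/10) * bb A B u w + (-3/10) * bb B A w u
      + bb B B w w) :
    (form ![A, A, B] L).PosSemidef := by
  refine PosSemidef.of_dotProduct_mulVec_nonneg (form_herm _ _ L_psd.isHermitian) fun v => ?_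
  rw [expand]
  set x : Fin n → ℂ := fun a => v (a, 0)
  set y : Fin n → ℂ := fun a => v (a, 1)
  set t : Fin n → ℂ := fun a => v (a, 2)
  have hA : ∀ u : Fin n → ℂ, 0 ≤ bb A A u u := by
    intro u
    have := h u 0
    simpa only [bb_zero_left, bb_zero_right, add_zero, mul_zero] using this
  have h1 := h (((-10/3 : ℝ) : ℂ) • x) t
  rw [bb_smul_left, bb_smul_right, bb_smul_left, bb_smul_right] at h1
  have h2 := hA (x + y)
  have h3 := mul_nonneg (show (0 : ℂ) ≤ ((35/9 : ℝ) : ℂ) from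
    Complex.zero_le_real.2 (by norm_num)) (hA x)
  have h4 := add_nonneg (add_nonneg h1 h2) h3
  convert h4 using 1
  rw [bb_add_left, bb_add_right, bb_add_right]
  simp [Fin.sum_univ_three, L]
  ring

lemma case0 {n : ℕ} (A : Matrix (Fin n) (Fin n) ℂ)
    (h : ∀ u : Fin n → ℂ, 0 ≤ bb A A u u) :
    (form ![A, A, A] L).PosSemidef := by
  apply case01
  intro u w
  have h1 := h (u + w)
  have h2 := mul_nonneg (show (0 : ℂ) ≤ 9 by norm_num) (h u)
  have h4 := add_nonneg h1 h2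
  convert h4 using 1
  rw [bb_add_left, bb_add_right, bb_add_right]
  ring

section rk
variable {n : ℕ} {H : Type} [NormedAddCommGroup H] [InnerProductSpace ℂ H] [CompleteSpace H]
  [RKHS ℂ H (Fin 3) (EuclideanSpace ℂ (Fin n))]

/-- The element of `H` representing the function `g`. -/
noncomputable def rep (H : Type) [NormedAddCommGroup H] [InnerProductSpace ℂ H] [CompleteSpace H]
    [RKHS ℂ H (Fin 3) (EuclideanSpace ℂ (Fin n))]
    (g : Fin 3 → EuclideanSpace ℂ (Fin n)) : H :=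
  ∑ y, RKHS.kerFun H y (∑ x, L⁻¹ y x • g x)

lemma rep_apply (hH : RKHS.kernel H = opKernel (fun x y => L x y) n)
    (g : Fin 3 → EuclideanSpace ℂ (Fin n)) (t : Fin 3) : (rep H g) t = g t := by
  have e1 : (rep H g) t = ∑ y, L t y • (∑ x, L⁻¹ y x • g x) := by
    unfold rep
    simp only [Fin.sum_univ_three, RKHS.coe_add, Pi.add_apply, RKHS.kerFun_apply, hH, opKernel,
      of_apply]
    rfl
  rw [e1]
  have h1 : L * L⁻¹ = 1 := Matrix.mul_nonsing_inv L
    ((Matrix.isUnit_iff_isUnit_det L).1 L_pd.isUnit)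
  simp only [Finset.smul_sum, smul_smul]
  rw [Finset.sum_comm]
  simp only [← Finset.sum_smul]
  have h2 : ∀ x, ∑ y, L t y * L⁻¹ y x = (1 : Matrix (Fin 3) (Fin 3) ℂ) t x := by
    intro x
    rw [← h1, Matrix.mul_apply]
  simp only [h2, Matrix.one_apply]
  simp

lemma rep_inner (g : Fin 3 → EuclideanSpace ℂ (Fin n)) (F : H) :
    inner ℂ (rep H g) F = ∑ y, ∑ x, L⁻¹ x y * (star (g x).ofLp ⬝ᵥ (F y).ofLp) := by
  unfold rep
  rw [sum_inner]
  apply Finset.sum_congr rfl
  intro y _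
  rw [RKHS.kerFun_inner, sum_inner]
  apply Finset.sum_congr rfl
  intro x _
  rw [inner_smul_left, EuclideanSpace.inner_eq_star_dotProduct, dotProduct_comm]
  congr 1
  have := L_pd.inv.isHermitian.apply x y
  exact this

lemma mult_of_form (hH : RKHS.kernel H = opKernel (fun x y => L x y) n)
    (Φ : Fin 3 → Matrix (Fin n) (Fin n) ℂ)
    (h : (form (fun x => (Φ x)ᴴ) L⁻¹).PosSemidef) (F : H) :
    ∃ G : H, (∀ x, G x = WithLp.toLp 2 (Φ x *ᵥ (F x).ofLp)) ∧ ‖G‖ ≤ ‖F‖ := by
  set g : Fin 3 → EuclideanSpace ℂ (Fin n) := fun x => WithLp.toLp 2 (Φ x *ᵥ (F x).ofLp) with hg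
  refine ⟨rep H g, fun x => rep_apply hH g x, ?_⟩
  have hF : rep H (fun x => F x) = F := RKHS.ext fun x => rep_apply hH _ x
  have hF2 : inner ℂ F F = ∑ y, ∑ x, L⁻¹ x y * (star (F x).ofLp ⬝ᵥ (F y).ofLp) := by
    conv_lhs => rw [← hF]
    rw [rep_inner, hF]
  have hG2 : inner ℂ (rep H g) (rep H g)
      = ∑ y, ∑ x, L⁻¹ x y * (star (Φ x *ᵥ (F x).ofLp) ⬝ᵥ (Φ y *ᵥ (F y).ofLp)) := by
    rw [rep_inner]
    simp only [rep_apply hH, hg]
  have h1 := h.dotProduct_mulVec_nonneg (fun p : Fin n × Fin 3 => (F p.2).ofLp p.1)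
  rw [expand] at h1
  have h2 : ∑ x, ∑ y, L⁻¹ x y * bb (Φ x)ᴴ (Φ y)ᴴ (fun a => (F x).ofLp a) (fun a => (F y).ofLp a)
      = inner ℂ F F - inner ℂ (rep H g) (rep H g) := by
    rw [hF2, hG2, Finset.sum_comm, ← Finset.sum_sub_distrib]
    apply Finset.sum_congr rfl
    intro y _
    rw [← Finset.sum_sub_distrib]
    apply Finset.sum_congr rfl
    intro x _
    rw [← mul_sub]
    congr 1
    rw [star_mulVec, ← dotProduct_mulVec, mulVec_mulVec, ← dotProduct_sub]
    simp only [bb, conjTranspose_conjTranspose, sub_mulVec, one_mulVec]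
  rw [h2] at h1
  rw [inner_self_eq_norm_sq_to_K, inner_self_eq_norm_sq_to_K] at h1
  have h3 : ‖rep H g‖ ^ 2 ≤ ‖F‖ ^ 2 := by
    have h4 : (0 : ℂ) ≤ ((‖F‖ ^ 2 - ‖rep H g‖ ^ 2 : ℝ) : ℂ) := by
      push_cast
      exact h1
    have := Complex.zero_le_real.1 h4
    linarith
  exact (sq_le_sq₀ (norm_nonneg _) (norm_nonneg _)).1 h3

end rk

lemma Kdiag_pos (x : Fin 3) : 0 < K x x := by
  fin_cases x <;> simp [K] 

lemma exists_form {n : ℕ} (hn : 1 ≤ n) (z : Fin n → Fin 3)
    (W : Fin n → Matrix (Fin n) (Fin n) ℂ) (h : (pick (fun x y => K x y) z W).PosSemidef) :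
    ∃ Φ : Fin 3 → Matrix (Fin n) (Fin n) ℂ,
      (form (fun x => (Φ x)ᴴ) L⁻¹).PosSemidef ∧ ∀ i, Φ (z i) = W i := by
  have heq : ∀ i j, z i = z j → W i = W j := fun i j hij =>
    eq_of_same _ z W h i j hij (Kdiag_pos _)
  have htwo := two _ z W h
  have hA : ∀ i (u : Fin n → ℂ), 0 ≤ bb (W i) (W i) u u := by
    intro i u
    have h1 := htwo i i u 0
    simp only [bb_zero_left, bb_zero_right, add_zero, mul_zero] at h1
    exact nn_of_mul _ _ (Kdiag_pos _) h1
  have fin : ∀ Φ : Fin 3 → Matrix (Fin n) (Fin n) ℂ, (form Φ L).PosSemidef →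
      (∀ i, Φ (z i) = W i) → ∃ Φ : Fin 3 → Matrix (Fin n) (Fin n) ℂ,
      (form (fun x => (Φ x)ᴴ) L⁻¹).PosSemidef ∧ ∀ i, Φ (z i) = W i :=
    fun Φ h1 h2 => ⟨Φ, form_flip Φ L L_pd h1, h2⟩
  have cover : ∀ i, z i = 0 ∨ z i = 1 ∨ z i = 2 := by
    intro i
    generalize z i = x
    fin_cases x <;> simp
  by_cases h0 : ∃ i, z i = 0
  · obtain ⟨i0, h0⟩ := h0
    by_cases h1 : ∃ i, z i = 1
    · obtain ⟨i1, h1⟩ := h1
      by_cases h2 : ∃ i, z i = 2
      · obtain ⟨i2, h2⟩ := h2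
        refine ⟨fun x => W (![i0, i1, i2] x), ?_, ?_⟩
        · apply full_case
          have := pick_sub _ z W h ![i0, i1, i2]
          convert this using 2
          ext x y
          have hz : ∀ x, z (![i0, i1, i2] x) = x := by
            intro x; fin_cases x <;> simp [h0, h1, h2]
          simp [hz]
        · intro i
          apply heq
          rcases cover i with hi | hi | hi <;> simp [hi, h0, h1, h2]
      · apply fin ![W i0, W i1, W i0]
        · apply case01
          intro u w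
          have := htwo i0 i1 u w
          simpa [h0, h1, K] using this
        · intro i
          rcases cover i with hi | hi | hi
          · rw [hi]; exact heq _ _ (h0.trans hi.symm)
          · rw [hi]; exact heq _ _ (h1.trans hi.symm)
          · exact absurd ⟨i, hi⟩ h2
    · by_cases h2 : ∃ i, z i = 2
      · obtain ⟨i2, h2⟩ := h2
        apply fin ![W i0, W i0, W i2]
        · apply case02
          intro u w
          have := htwo i0 i2 u w
          simpa [h0, h2, K] using this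
        · intro i
          rcases cover i with hi | hi | hi
          · rw [hi]; exact heq _ _ (h0.trans hi.symm)
          · exact absurd ⟨i, hi⟩ h1
          · rw [hi]; exact heq _ _ (h2.trans hi.symm)
      · apply fin ![W i0, W i0, W i0] (case0 _ (hA i0))
        intro i
        rcases cover i with hi | hi | hi
        · rw [hi]; exact heq _ _ (h0.trans hi.symm)
        · exact absurd ⟨i, hi⟩ h1
        · exact absurd ⟨i, hi⟩ h2
  · by_cases h1 : ∃ i, z i = 1
    · obtain ⟨i1, h1⟩ := h1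
      by_cases h2 : ∃ i, z i = 2
      · obtain ⟨i2, h2⟩ := h2
        apply fin ![W i1, W i1, W i2]
        · apply case12
          intro u w
          have := htwo i1 i2 u w
          simpa [h1, h2, K] using this
        · intro i
          rcases cover i with hi | hi | hi
          · exact absurd ⟨i, hi⟩ h0
          · rw [hi]; exact heq _ _ (h1.trans hi.symm)
          · rw [hi]; exact heq _ _ (h2.trans hi.symm)
      · apply fin ![W i1, W i1, W i1] (case0 _ (hA i1))
        intro i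
        rcases cover i with hi | hi | hi
        · exact absurd ⟨i, hi⟩ h0
        · rw [hi]; exact heq _ _ (h1.trans hi.symm)
        · exact absurd ⟨i, hi⟩ h2
    · by_cases h2 : ∃ i, z i = 2
      · obtain ⟨i2, h2⟩ := h2
        apply fin ![W i2, W i2, W i2] (case0 _ (hA i2))
        intro i
        rcases cover i with hi | hi | hi
        · exact absurd ⟨i, hi⟩ h0
        · exact absurd ⟨i, hi⟩ h1
        · rw [hi]; exact heq _ _ (h2.trans hi.symm)
      · exfalso
        rcases cover ⟨0, hn⟩ with hi | hi | hi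
        · exact h0 ⟨_, hi⟩
        · exact h1 ⟨_, hi⟩
        · exact h2 ⟨_, hi⟩

lemma opKernel_psd (n : ℕ) (l : Fin 3 → Fin 3 → ℂ) (hl : (Matrix.of l).PosSemidef) :
    (opKernel l n).PosSemidef := by
  have key := (RKHS.posSemidef_tfae (K := opKernel l n)).out 0 2
  have hsym : ∀ x y, star (l y x) = l x y := fun x y => hl.isHermitian.apply x y
  refine key.2 ⟨?_, ?_⟩
  · refine Matrix.IsHermitian.ext fun x y => ?_
    simp only [opKernel, of_apply]
    rw [star_smul, hsym, star_one]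
  · intro vv
    have e1 : (vv.sum fun x w => vv.sum fun x' w' =>
        inner ℂ ((opKernel l n) x' x w) w')
        = ∑ a, star (fun x => (vv x).ofLp a) ⬝ᵥ (Matrix.of l *ᵥ (fun x => (vv x).ofLp a)) := by
      rw [Finsupp.sum_fintype _ _ (by intro i; simp)]
      have e0 : ∀ x w, (vv.sum fun x' w' => inner ℂ ((opKernel l n) x' x w) w')
          = ∑ x', inner ℂ ((opKernel l n) x' x w) (vv x') := fun x w =>
        Finsupp.sum_fintype _ _ (by intro i; simp)
      simp only [e0]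
      simp only [dotProduct, mulVec, Pi.star_apply, Finset.mul_sum, of_apply]
      rw [Finset.sum_comm (s := (Finset.univ : Finset (Fin n)))]
      apply Finset.sum_congr rfl
      intro x _
      rw [Finset.sum_comm (s := (Finset.univ : Finset (Fin n)))]
      apply Finset.sum_congr rfl
      intro y _
      have e2 : (opKernel l n) y x (vv x) = l y x • vv x := rfl
      rw [e2, inner_smul_left, EuclideanSpace.inner_eq_star_dotProduct, dotProduct,
        Finset.mul_sum]
      apply Finset.sum_congr rfl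
      intro a _
      have e3 : (starRingEnd ℂ) (l y x) = l x y := hsym x y
      rw [e3]
      simp only [Pi.star_apply]
      ring
    rw [e1]
    have e4 : (0 : ℂ) ≤
        ∑ a, star (fun x => (vv x).ofLp a) ⬝ᵥ (Matrix.of l *ᵥ (fun x => (vv x).ofLp a)) :=
      Finset.sum_nonneg fun a _ => hl.dotProduct_mulVec_nonneg _
    exact (Complex.le_def.1 e4).1

/-- **Negative answer to Q1.** On the three-point set there are reproducing kernels `k`, `l`
(both even strictly positive definite), `k` non-vanishing, such that `(k, l)` is complete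
pseudo-Pick but `l / k` is not positive semi-definite. -/
theorem result : ∃ k l : Fin 3 → Fin 3 → ℂ, (Matrix.of k).PosDef ∧ (Matrix.of l).PosDef ∧
    IsKernel k ∧ IsKernel l ∧ (∀ x y, k x y ≠ 0) ∧
    CompletePseudoPick k l ∧ ¬ IsKernel (fun x y => l x y / k x y) := by
  refine ⟨fun x y => K x y, fun x y => L x y, K_pd, L_pd, ?_, ?_, ?_, ?_, ?_⟩
  · intro m z
    exact K_psd.submatrix z
  · intro m z
    exact L_psd.submatrix z
  · intro x y
    fin_cases x <;> fin_cases y <;> simp [K] 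
  · intro n hn z W h
    obtain ⟨Φ, h1, h2⟩ := exists_form hn z W h
    refine ⟨Φ, ⟨opKernel_psd n _ L_psd, ?_⟩, h2⟩
    have : Fact (opKernel (fun x y => L x y) n).PosSemidef :=
      ⟨opKernel_psd n _ L_psd⟩
    intro F
    exact mult_of_form RKHS.OfKernel.kernel_ofKernel Φ h1 F
  · intro h
    have h1 := (h 3 id).dotProduct_mulVec_nonneg ![1, -1, -1]
    simp [mulVec, dotProduct, Fin.sum_univ_three, K, L] at h1
    norm_num at h1
    have h2 := (Complex.le_def.1 h1).1
    norm_num at h2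

end Pool.Agent.Results.MP_cbd977_an.ThreePoint
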